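import Pool.Agent.X194.RB.Test

/-!
# An irrational number attached to a branch
-/

namespace Pool.Agent.X194.RB

theorem W_ge_pow (k j : ℕ) : 2 ^ j * W k ≤ W (j + k) := by
  induction j with
  | zero => simp
  | succ j ih =>
    have h1 : 2 * W (j + k) ≤ W (j + 1 + k) := by
      rw [show j + 1 + k = (j + k) + 1 by ring, W_succ]
      have h2 := two_le_W (j + k)
      have h3 : 2 ≤ W (j + k) ^ 3 + 1 := by
        have := Nat.one_le_pow 3 (W (j + k)) (by omega)
        omega
      nlinarith
    calc 2 ^ (j + 1) * W k = 2 * (2 ^ j * W k) := by ring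
      _ ≤ 2 * W (j + k) := by omega
      _ ≤ _ := h1

theorem W_dvd {j k : ℕ} (h : j ≤ k) : W j ∣ W k := by
  induction k, h using Nat.le_induction with
  | base => exact dvd_rfl
  | succ k _ ih => exact ih.trans (Dvd.intro _ rfl)

theorem P_dvd {j k : ℕ} (h : j < k) : W j ^ 3 + 1 ∣ W k :=
  (Dvd.intro_left (W j) rfl : W j ^ 3 + 1 ∣ W (j + 1)).trans (W_dvd h)

section
variable (y : ℕ → ℕ)

open Classical in
/-- The digits of the number attached to the branch `y`. -/
noncomputable def dig (p : ℕ) : ℤ :=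
  if ∃ n, ∃ i ≤ y n, p = ch i (br y n) then 1 else 0

theorem dig_cases (p : ℕ) : dig y p = 0 ∨ dig y p = 1 := by
  unfold dig
  split <;> simp

theorem dig_one {n i : ℕ} (h : i ≤ y n) : dig y (ch i (br y n)) = 1 := by
  unfold dig
  rw [if_pos ⟨n, i, h, rfl⟩]

theorem dig_ne {p : ℕ} (h : dig y p ≠ 0) : ∃ n, ∃ i ≤ y n, p = ch i (br y n) := by
  unfold dig at h
  by_contra hc
  rw [if_neg hc] at h
  exact h rfl

theorem le_br (n : ℕ) : n ≤ br y n := by
  induction n with
  | zero => exact Nat.zero_le _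
  | succ n ih =>
    have := lt_ch (y n) (br y n)
    show n + 1 ≤ ch (y n) (br y n)
    omega

/-- The flow equation. -/
theorem dig_flow (p : ℕ) (hp : 1 ≤ p) : dig y p = dig y (dn p) + dig y (sk p) := by
  by_cases h : dig y p = 0
  · have h1 : dig y (dn p) = 0 := by
      by_contra h2
      obtain ⟨n, i, hi, h3⟩ := dig_ne y h2
      have h4 := ch_inj (h3 : ch 0 p = ch i (br y n))
      cases n with
      | zero =>
        have : p = 0 := h4.2
        omega
      | succ n =>
        have h5 : p = ch (y n) (br y n) := h4.2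
        rw [h5, dig_one y le_rfl] at h
        exact one_ne_zero h
    have h2 : dig y (sk p) = 0 := by
      by_contra h2
      obtain ⟨n, i, hi, h3⟩ := dig_ne y h2
      have h4 := ch_inj (h3 : ch (idx p + 1) (par p) = ch i (br y n))
      have h5 : p = ch (idx p) (br y n) := by rw [← h4.2, ch_idx_par hp]
      rw [h5, dig_one y (by omega)] at h
      exact one_ne_zero h
    rw [h, h1, h2]; rfl
  · obtain ⟨n, i, hi, h3⟩ := dig_ne y h
    have hidx : idx p = i := by rw [h3, idx_ch]
    have hpar : par p = br y n := by rw [h3, par_ch]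
    have h1 : dig y p = 1 := by rw [h3]; exact dig_one y hi
    rcases Nat.lt_or_eq_of_le hi with h4 | h4
    · have h5 : dig y (sk p) = 1 := by
        unfold sk
        rw [hidx, hpar]
        exact dig_one y h4
      have h6 : dig y (dn p) = 0 := by
        by_contra h7
        obtain ⟨n', i', hi', h8⟩ := dig_ne y h7
        have h9 := ch_inj (h8 : ch 0 p = ch i' (br y n'))
        cases n' with
        | zero =>
          have : p = 0 := h9.2
          omega
        | succ n' =>
          have h10 : ch i (br y n) = ch (y n') (br y n') := by rw [← h3]; exact h9.2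
          have h11 := ch_inj h10
          have h12 := (br_inj y y n n' h11.2).1
          subst h12
          omega
      rw [h1, h5, h6]; rfl
    · have h5 : dig y (dn p) = 1 := by
        have h6 : dn p = ch 0 (br y (n + 1)) := by
          show ch 0 p = ch 0 (ch (y n) (br y n))
          rw [h3, h4]
        rw [h6]
        exact dig_one y (Nat.zero_le _)
      have h6 : dig y (sk p) = 0 := by
        by_contra h7
        obtain ⟨n', i', hi', h8⟩ := dig_ne y h7
        have h9 := ch_inj (h8 : ch (idx p + 1) (par p) = ch i' (br y n'))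
        rw [hpar] at h9
        have h12 := (br_inj y y n n' h9.2).1
        subst h12
        omega
      rw [h1, h5, h6]; rfl

/-- The terms of the series. -/
noncomputable def u (p : ℕ) : ℝ := (dig y p : ℝ) / ((W p : ℝ) ^ 3 + 1)

theorem u_nonneg (p : ℕ) : 0 ≤ u y p := by
  unfold u
  have := W_pos p
  rcases dig_cases y p with h | h <;> rw [h] <;> simp <;> positivity

theorem u_le (k j : ℕ) : u y (j + k) ≤ (1 / (W k : ℝ) ^ 3) * (1 / 2) ^ j := by
  have h1 : ((2 : ℝ) ^ j * W k) ≤ W (j + k) := by exact_mod_cast W_ge_pow k j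
  have h2 := W_pos k
  have h3 := W_pos (j + k)
  have h4 : u y (j + k) ≤ 1 / ((W (j + k) : ℝ) ^ 3 + 1) := by
    unfold u
    have h5 : (dig y (j + k) : ℝ) ≤ 1 := by
      rcases dig_cases y (j + k) with h | h <;> rw [h] <;> simp
    gcongr
  refine h4.trans ?_
  have h6 : (2 : ℝ) ^ j * (W k : ℝ) ^ 3 ≤ (W (j + k) : ℝ) ^ 3 + 1 := by
    have h7 : ((2 : ℝ) ^ j * W k) ^ 3 ≤ (W (j + k) : ℝ) ^ 3 := by gcongr
    have h8 : (1 : ℝ) ≤ 2 ^ j := one_le_pow₀ (by norm_num)
    have h9 : (2 : ℝ) ^ j ≤ ((2 : ℝ) ^ j) ^ 3 := le_self_pow₀ h8 (by norm_num)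
    have h10 : (2 : ℝ) ^ j * (W k : ℝ) ^ 3 ≤ ((2 : ℝ) ^ j) ^ 3 * (W k : ℝ) ^ 3 := by gcongr
    rw [mul_pow] at h7
    linarith
  have h7 : (1 / (W k : ℝ) ^ 3) * (1 / 2) ^ j = 1 / ((2 : ℝ) ^ j * (W k : ℝ) ^ 3) := by
    rw [one_div_pow]; field_simp
  rw [h7]
  exact one_div_le_one_div_of_le (by positivity) h6

theorem summable_shift (k : ℕ) : Summable (fun j => u y (j + k)) :=
  Summable.of_nonneg_of_le (fun j => u_nonneg y _) (u_le y k)
    ((summable_geometric_of_lt_one (by norm_num) (by norm_num)).mul_left _)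

/-- The tails of the series. -/
noncomputable def tl (k : ℕ) : ℝ := ∑' j, u y (j + k)

theorem tl_nonneg (k : ℕ) : 0 ≤ tl y k := tsum_nonneg fun j => u_nonneg y _

theorem tl_le (k : ℕ) : tl y k ≤ 2 / (W k : ℝ) ^ 3 := by
  have h1 : tl y k ≤ ∑' j : ℕ, (1 / (W k : ℝ) ^ 3) * (1 / 2) ^ j :=
    (summable_shift y k).tsum_le_tsum (u_le y k)
      ((summable_geometric_of_lt_one (by norm_num) (by norm_num)).mul_left _)
  rw [tsum_mul_left, tsum_geometric_of_lt_one (by norm_num) (by norm_num)] at h1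
  refine h1.trans (le_of_eq ?_)
  norm_num
  ring

theorem tl_succ (k : ℕ) : tl y k = u y k + tl y (k + 1) := by
  unfold tl
  rw [(summable_shift y k).tsum_eq_zero_add]
  congr 1
  · rw [zero_add]
  · refine tsum_congr fun j => ?_
    congr 1; ring

/-- The remainders. -/
noncomputable def er (k : ℕ) : ℝ := W k * tl y k

theorem er_le (k : ℕ) : |er y k| ≤ 2 / (W k : ℝ) ^ 2 := by
  have h1 := tl_nonneg y k
  have h2 := tl_le y k
  have h3 := W_pos k
  unfold er
  rw [abs_of_nonneg (by positivity)]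
  calc (W k : ℝ) * tl y k ≤ W k * (2 / (W k : ℝ) ^ 3) := by gcongr
    _ = _ := by field_simp

theorem exists_int (k : ℕ) : ∃ m : ℤ, (W k : ℝ) * (tl y 0 - tl y k) = m := by
  have h1 : ∀ n, n ≤ k → ∃ m : ℤ, (W k : ℝ) * (tl y 0 - tl y n) = m := by
    intro n
    induction n with
    | zero => intro _; exact ⟨0, by simp⟩
    | succ n ih =>
      intro hn
      obtain ⟨m, hm⟩ := ih (by omega)
      obtain ⟨c, hc⟩ := P_dvd (show n < k by omega)
      refine ⟨m + c * dig y n, ?_⟩
      have h2 := tl_succ y n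
      have h3 : (W k : ℝ) = ((W n : ℝ) ^ 3 + 1) * c := by rw [hc]; push_cast; ring
      have h4 : (W k : ℝ) * u y n = c * dig y n := by
        unfold u
        have : (0 : ℝ) < (W n : ℝ) ^ 3 + 1 := by have := W_pos n; positivity
        rw [h3]; field_simp
      have h5 : (W k : ℝ) * (tl y 0 - tl y (n + 1)) = W k * (tl y 0 - tl y n) + W k * u y n := by
        rw [h2]; ring
      rw [h5, hm, h4]; push_cast; ring
  exact h1 k le_rfl

theorem dig_Dig : Dig (tl y 0) 0 (dig y) (er y) where
  cong := by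
    intro k _
    obtain ⟨m, hm⟩ := exists_int y k
    exact ⟨m, by rw [← hm]; unfold er; ring⟩
  rc := by
    intro k _
    unfold er
    rw [tl_succ y k, W_succ]
    unfold u
    have : (0 : ℝ) < (W k : ℝ) ^ 3 + 1 := by have := W_pos k; positivity
    push_cast
    field_simp
    ring
  ebd := by
    intro k _
    refine (er_le y k).trans ?_
    have h1 := W_pos k
    have h2 := W_two k
    rw [div_le_div_iff₀ (by positivity) h1]
    nlinarith
  abd := by
    intro k _
    have h2 := W_two k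
    rcases dig_cases y k with h | h
    · rw [h]; simp
    · rw [h]; simp only [Int.cast_one, abs_one]; linarith

theorem tl_pos (k : ℕ) : 0 < tl y k := by
  have h1 : 0 < u y (ch 0 (br y k)) := by
    unfold u
    rw [dig_one y (Nat.zero_le _)]
    have := W_pos (ch 0 (br y k))
    positivity
  have h2 : k ≤ ch 0 (br y k) := (le_br y k).trans (lt_ch _ _).le
  have h3 := (summable_shift y k).le_tsum (ch 0 (br y k) - k) (fun j _ => u_nonneg y _)
  rw [Nat.sub_add_cancel h2] at h3
  exact lt_of_lt_of_le h1 h3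

theorem irrational_tl (m : ℕ) (hm : 0 < m) (n : ℤ) : (m : ℝ) * tl y 0 ≠ n := by
  intro h
  obtain ⟨c, hc⟩ := exists_int y (2 * m + 1)
  have h1 : (m : ℝ) * er y (2 * m + 1) = ((W (2 * m + 1) * n - m * c : ℤ) : ℝ) := by
    push_cast
    rw [← h, ← hc]; unfold er; ring
  have h2 := er_le y (2 * m + 1)
  have h3 : (0 : ℝ) < er y (2 * m + 1) := mul_pos (W_pos _) (tl_pos y _)
  have h4 : (0 : ℝ) < m := by exact_mod_cast hm
  have h5 : (m : ℝ) * er y (2 * m + 1) < 1 := by
    rw [abs_of_pos h3] at h2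
    have h6 : (2 * m + 1 : ℝ) < W (2 * m + 1) := by exact_mod_cast lt_W (2 * m + 1)
    have h7 := W_pos (2 * m + 1)
    calc (m : ℝ) * er y (2 * m + 1) ≤ m * (2 / (W (2 * m + 1) : ℝ) ^ 2) := by gcongr
      _ < 1 := by
        rw [← mul_div_assoc, div_lt_one (by positivity)]
        nlinarith
  have h6 : 0 < (m : ℝ) * er y (2 * m + 1) := mul_pos h4 h3
  rw [h1] at h5 h6
  have h7 : (W (2 * m + 1) * n - m * c : ℤ) < 1 := by exact_mod_cast h5
  have h8 : 0 < (W (2 * m + 1) * n - m * c : ℤ) := by exact_mod_cast h6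
  omega

theorem N_zero : N 0 = 0 := by simp [N]

/-- All tests pass for the number attached to a branch of the tree. -/
theorem pass_of_branch {T : ℕ → Prop} (hy : ∀ n, T (br y n)) :
    ∀ ε : ℝ, 0 < ε → ∃ K : ℕ, ∀ q p r : ℕ, K ≤ p → N ((tst T q p r : ℝ) * tl y 0) < ε := by
  intro ε hε
  have D := dig_Dig y
  obtain ⟨n₀, hn₀⟩ := exists_nat_gt (1 / ε)
  obtain ⟨K₁, hK₁⟩ := exists_nat_gt (36 / ε)
  set B : ℕ := ∑ n ∈ Finset.range n₀, ch (y n) (br y n) with hB
  refine ⟨K₁ + B + 1, fun q p r hp => ?_⟩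
  have hWp : 9 / (W p : ℝ) < ε / 4 := by
    have h1 : (K₁ : ℝ) ≤ W p := by
      have := lt_W p
      exact_mod_cast (by omega : K₁ ≤ W p)
    have h2 := W_pos p
    rw [div_lt_iff₀ h2]
    rw [div_lt_iff₀ hε] at hK₁
    nlinarith
  have hW0 := W_pos p
  have hW2 := W_two p
  by_cases hr : r ≤ RR p
  swap
  · rw [tst_big T hr]; simp [N_zero, hε]
  by_cases hr0 : r = 0
  · subst hr0
    have : tst T q p 0 = 0 := by
      unfold tst X
      split_ifs <;> simp
    rw [this]; simp [N_zero, hε]
  have hr1 : 1 ≤ r := by omega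
  obtain ⟨m, hm⟩ := D.cong p (Nat.zero_le _)
  by_cases hq0 : q = 0
  · subst hq0
    by_cases hrW : r ≤ W p
    swap
    · have : tst T 0 p r = 0 := by
        unfold tst; rw [if_pos hr, if_pos rfl, if_neg hrW]
      rw [this]; simp [N_zero, hε]
    rw [tst_zero T hrW]
    have h1 := N_le (((r : ℤ) * W p : ℤ) * tl y 0) (r * m)
    have h2 : (((r : ℤ) * W p : ℤ) : ℝ) * tl y 0 - ((r * m : ℤ) : ℝ) = r * er y p := by
      push_cast
      have : (r : ℝ) * W p * tl y 0 = r * (W p * tl y 0) := by ring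
      rw [this, hm]; ring
    rw [h2, abs_mul, abs_of_nonneg (Nat.cast_nonneg r)] at h1
    have h3 := er_le y p
    have h4 : (r : ℝ) ≤ W p := by exact_mod_cast hrW
    have h5 : (r : ℝ) * |er y p| ≤ 2 / W p := by
      calc (r : ℝ) * |er y p| ≤ W p * (2 / (W p : ℝ) ^ 2) := by gcongr
        _ = _ := by field_simp
    have h6 : (2 : ℝ) / W p ≤ 9 / W p := by gcongr; norm_num
    linarith
  by_cases hq1 : q = 1
  · subst hq1
    by_cases hrW : r ≤ W p
    swap
    · have : tst T 1 p r = 0 := by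
        unfold tst; rw [if_pos hr, if_neg (by decide), if_pos rfl, if_neg hrW]
      rw [this]; simp [N_zero, hε]
    rw [tst_one T hrW]
    have h1 := N_le (((r : ℤ) * W p ^ 3 : ℤ) * tl y 0) (r * (W p ^ 2 * m + dig y p))
    have h2 : (((r : ℤ) * W p ^ 3 : ℤ) : ℝ) * tl y 0 - ((r * (W p ^ 2 * m + dig y p) : ℤ) : ℝ)
        = r * ((W p : ℝ) ^ 2 * er y p - dig y p) := by
      push_cast
      have : (r : ℝ) * W p ^ 3 * tl y 0 = r * W p ^ 2 * (W p * tl y 0) := by ring
      rw [this, hm]; ring
    have h7 := D.rc p (Nat.zero_le _)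
    have h8 : (W p : ℝ) ^ 2 * er y p - dig y p = (er y (p + 1) - er y p) / W p := by
      rw [h7]; field_simp; ring
    rw [h2, h8, abs_mul, abs_of_nonneg (Nat.cast_nonneg r), abs_div, abs_of_pos hW0] at h1
    have h3 := D.ebd p (Nat.zero_le _)
    have h3' : |er y (p + 1)| ≤ 1 / W p := by
      refine (D.ebd (p + 1) (Nat.zero_le _)).trans ?_
      have : (W p : ℝ) ≤ W (p + 1) := by exact_mod_cast (W_strictMono (Nat.lt_succ_self p)).le
      exact one_div_le_one_div_of_le hW0 this
    have h4 : (r : ℝ) ≤ W p := by exact_mod_cast hrW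
    have h9 : |er y (p + 1) - er y p| ≤ 2 / W p := by
      refine (abs_sub _ _).trans ?_
      have : (2 : ℝ) / W p = 1 / W p + 1 / W p := by ring
      linarith
    have h5 : (r : ℝ) * (|er y (p + 1) - er y p| / W p) ≤ 2 / W p := by
      calc (r : ℝ) * (|er y (p + 1) - er y p| / W p) ≤ W p * ((2 / W p) / W p) := by gcongr
        _ = _ := by field_simp
    have h6 : (2 : ℝ) / W p ≤ 9 / W p := by gcongr; norm_num
    linarith
  by_cases hq2 : q = 2
  · subst hq2
    obtain ⟨m1, t1⟩ := D.test (k := p) (Nat.zero_le _) hr1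
    by_cases hT : T (par p)
    · rw [tst_two_pos hr hT]
      obtain ⟨m2, t2⟩ := D.test (k := dn p) (Nat.zero_le _) hr1
      obtain ⟨m3, t3⟩ := D.test (k := sk p) (Nat.zero_le _) hr1
      have g2 := le_one_div_W (lt_dn p).le
      have g3 := le_one_div_W (lt_sk (p := p) (by omega)).le
      have hfl := dig_flow y p (by omega)
      have h1 := N_le (((X p r - X (dn p) r - X (sk p) r : ℤ) : ℝ) * tl y 0) (m1 - m2 - m3)
      have h2 : ((X p r - X (dn p) r - X (sk p) r : ℤ) : ℝ) * tl y 0 - ((m1 - m2 - m3 : ℤ) : ℝ) =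
          (X p r * tl y 0 - (m1 + dig y p / (4 * r))) -
            (X (dn p) r * tl y 0 - (m2 + dig y (dn p) / (4 * r)))
          - (X (sk p) r * tl y 0 - (m3 + dig y (sk p) / (4 * r))) := by
        rw [hfl]; push_cast; ring
      rw [h2] at h1
      have h3 := (abs_sub (X p r * tl y 0 - (m1 + dig y p / (4 * r)) -
            (X (dn p) r * tl y 0 - (m2 + dig y (dn p) / (4 * r))))
          (X (sk p) r * tl y 0 - (m3 + dig y (sk p) / (4 * r))))
      have h4 := (abs_sub (X p r * tl y 0 - (m1 + dig y p / (4 * r)))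
            (X (dn p) r * tl y 0 - (m2 + dig y (dn p) / (4 * r))))
      have h5 : (9 : ℝ) / W p = 3 / W p + 3 / W p + 3 / W p := by ring
      linarith
    · rw [tst_two_neg hr hT]
      have h0 : dig y p = 0 := by
        by_contra h0
        obtain ⟨n, i, hi, h3⟩ := dig_ne y h0
        rw [h3, par_ch] at hT
        exact hT (hy n)
      rw [h0, Int.cast_zero, zero_div, add_zero] at t1
      have h1 := N_le ((X p r : ℝ) * tl y 0) m1
      have h6 : (3 : ℝ) / W p ≤ 9 / W p := by gcongr; norm_num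
      linarith
  by_cases hq3 : q = 3
  · subst hq3
    rw [tst_three T hr]
    obtain ⟨m1, t1⟩ := D.test (k := p) (r := r * (par p + 1)) (Nat.zero_le _)
      (Nat.mul_pos hr1 (Nat.succ_pos _))
    have h1 := N_le ((X p (r * (par p + 1)) : ℝ) * tl y 0) m1
    have h6 : (3 : ℝ) / W p ≤ 9 / W p := by gcongr; norm_num
    have h2 : |(dig y p : ℝ) / (4 * ((r * (par p + 1) : ℕ) : ℝ))| ≤ ε / 4 := by
      by_cases h0 : dig y p = 0
      · rw [h0]; simp; linarith
      · obtain ⟨n, i, hi, h3⟩ := dig_ne y h0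
        have hn : n₀ ≤ n := by
          by_contra hlt
          have h4 : ch (y n) (br y n) ≤ B := by
            rw [hB]
            exact Finset.single_le_sum (f := fun n => ch (y n) (br y n))
              (fun _ _ => Nat.zero_le _) (Finset.mem_range.2 (by omega))
          have h5 := ch_le_ch hi (br y n)
          omega
        have h4 : n₀ ≤ par p := by
          rw [h3, par_ch]
          exact hn.trans (le_br y n)
        have h5 : dig y p = 1 := (dig_cases y p).resolve_left h0
        have h7 : (n₀ : ℝ) ≤ ((r * (par p + 1) : ℕ) : ℝ) := by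
          have : n₀ ≤ r * (par p + 1) := by nlinarith
          exact_mod_cast this
        have h8 : (0 : ℝ) < n₀ := lt_trans (by positivity) hn₀
        rw [h5, Int.cast_one, abs_of_nonneg (by positivity)]
        rw [div_lt_iff₀ hε] at hn₀
        rw [div_le_div_iff₀ (by linarith) (by norm_num)]
        nlinarith
    have h3 : |(X p (r * (par p + 1)) : ℝ) * tl y 0 - m1| ≤
        |(X p (r * (par p + 1)) : ℝ) * tl y 0 -
          (m1 + (dig y p : ℝ) / (4 * ((r * (par p + 1) : ℕ) : ℝ)))| +
        |(dig y p : ℝ) / (4 * ((r * (par p + 1) : ℕ) : ℝ))| := by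
      refine le_trans (le_of_eq ?_) (abs_add_le _ _)
      congr 1; ring
    linarith
  · rw [tst_four T (by omega)]; simp [N_zero, hε]

end

end Pool.Agent.X194.RB
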