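import Mathlib

/-!
# A concrete analytic non-Borel set of points of Cantor space
-/

namespace Pool.Agent.X194.RB

/-- The code of the child number `j` of the node with code `e`. -/
def ch (j e : ℕ) : ℕ := Nat.pair j e + 1

/-- The code of the initial segment of length `n` of `y`. -/
def br (y : ℕ → ℕ) : ℕ → ℕ
  | 0 => 0
  | n + 1 => ch (y n) (br y n)

theorem ch_inj {j e j' e' : ℕ} (h : ch j e = ch j' e') : j = j' ∧ e = e' := by
  unfold ch at h
  have h' : Nat.pair j e = Nat.pair j' e' := by omega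
  exact Nat.pair_eq_pair.1 h'

theorem lt_ch (j e : ℕ) : e < ch j e := by
  unfold ch
  have := Nat.right_le_pair j e
  omega

theorem br_inj (y y' : ℕ → ℕ) : ∀ n m : ℕ, br y n = br y' m → n = m ∧ ∀ i < n, y i = y' i
  | 0, 0, _ => ⟨rfl, fun i hi => absurd hi (Nat.not_lt_zero i)⟩
  | 0, m + 1, h => by simp [br, ch] at h
  | n + 1, 0, h => by simp [br, ch] at h
  | n + 1, m + 1, h => by
      have h1 := ch_inj (h : ch (y n) (br y n) = ch (y' m) (br y' m))
      obtain ⟨h2, h3⟩ := br_inj y y' n m h1.2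
      refine ⟨by omega, fun i hi => ?_⟩
      rcases Nat.lt_succ_iff_lt_or_eq.1 hi with h4 | h4
      · exact h3 i h4
      · subst h4
        rw [h1.1, ← h2]

theorem br_congr {y y' : ℕ → ℕ} : ∀ n : ℕ, (∀ i < n, y i = y' i) → br y n = br y' n
  | 0, _ => rfl
  | n + 1, h => by
      show ch (y n) (br y n) = ch (y' n) (br y' n)
      rw [h n (Nat.lt_succ_self n), br_congr n (fun i hi => h i (by omega))]

/-- The code of the initial segment of length `n` of a point of Cantor space. -/
def pre (τ : ℕ → Bool) (n : ℕ) : ℕ := br (fun i => (τ i).toNat) n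

/-- The point `τ` accepts the initial segment of length `n` of `y`. -/
def good (τ : ℕ → Bool) (y : ℕ → ℕ) (n : ℕ) : Prop := τ (Nat.pair (pre τ n) (br y n)) = true

/-- The diagonal analytic set. -/
def A : Set (ℕ → Bool) := {τ | ∃ y : ℕ → ℕ, ∀ n, good τ y n}

/-- The tree attached to `τ`. -/
def Tr (τ : ℕ → Bool) (e : ℕ) : Prop := ∃ (y : ℕ → ℕ) (n : ℕ), br y n = e ∧ ∀ m ≤ n, good τ y m

theorem continuous_pre : ∀ n : ℕ, Continuous (fun τ : ℕ → Bool => pre τ n)
  | 0 => continuous_const
  | n + 1 => by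
      have h1 : Continuous (fun τ : ℕ → Bool => (τ n, pre τ n)) :=
        (continuous_apply n).prodMk (continuous_pre n)
      have h2 : Continuous (fun q : Bool × ℕ => ch q.1.toNat q.2) := continuous_of_discreteTopology
      exact h2.comp h1

theorem isOpen_good (y : ℕ → ℕ) (n : ℕ) : IsOpen {τ : ℕ → Bool | good τ y n} := by
  have h : {τ : ℕ → Bool | good τ y n} =
      ⋃ v : ℕ, ((fun τ : ℕ → Bool => pre τ n) ⁻¹' {v} ∩
        (fun τ : ℕ → Bool => τ (Nat.pair v (br y n))) ⁻¹' {true}) := by
    ext τ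
    simp only [Set.mem_ofPred_eq, Set.mem_iUnion, Set.mem_inter_iff, Set.mem_preimage,
      Set.mem_singleton_iff, good]
    constructor
    · intro h
      exact ⟨_, rfl, h⟩
    · rintro ⟨v, rfl, h⟩
      exact h
  rw [h]
  refine isOpen_iUnion fun v => IsOpen.inter ?_ ?_
  · exact (isOpen_discrete _).preimage (continuous_pre n)
  · exact (isOpen_discrete _).preimage (continuous_apply _)

theorem isOpen_Tr (e : ℕ) : IsOpen {τ : ℕ → Bool | Tr τ e} := by
  have h : {τ : ℕ → Bool | Tr τ e} =
      ⋃ (y : ℕ → ℕ) (n : ℕ) (_ : br y n = e), ⋂ m ∈ Finset.range (n + 1), {τ | good τ y m} := by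
    ext τ
    simp only [Set.mem_ofPred_eq, Set.mem_iUnion, Set.mem_iInter, Tr, Finset.mem_range]
    constructor
    · rintro ⟨y, n, h1, h2⟩
      exact ⟨y, n, h1, fun m hm => h2 m (by omega)⟩
    · rintro ⟨y, n, h1, h2⟩
      exact ⟨y, n, h1, fun m hm => h2 m (by omega)⟩
  rw [h]
  refine isOpen_iUnion fun y => isOpen_iUnion fun n => isOpen_iUnion fun _ => ?_
  exact isOpen_biInter_finset fun m _ => isOpen_good y m

theorem Tr_br {τ : ℕ → Bool} {y : ℕ → ℕ} {n : ℕ} (h : Tr τ (br y n)) : ∀ m ≤ n, good τ y m := by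
  obtain ⟨y', n', h1, h2⟩ := h
  obtain ⟨h3, h4⟩ := br_inj _ _ _ _ h1
  subst h3
  intro m hm
  have h5 := h2 m hm
  unfold good at h5 ⊢
  rwa [br_congr m (fun i hi => (h4 i (by omega)).symm)]

/-- The tree is closed under initial segments. -/
theorem Tr_of_ch {τ : ℕ → Bool} {j e : ℕ} (h : Tr τ (ch j e)) : Tr τ e := by
  obtain ⟨y, n, h1, h2⟩ := h
  cases n with
  | zero => simp [br, ch] at h1
  | succ n =>
    have h3 := ch_inj (h1 : ch (y n) (br y n) = ch j e)
    exact ⟨y, n, h3.2, fun m hm => h2 m (by omega)⟩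

/-- A chain of nodes of the tree of `τ` puts `τ` in `A`. -/
theorem mem_A_of_chain {τ : ℕ → Bool} (s : ℕ → ℕ) (j : ℕ → ℕ)
    (hs : ∀ k, s (k + 1) = ch (j k) (s k)) (hT : ∀ k, Tr τ (s k)) : τ ∈ A := by
  obtain ⟨y0, n0, h0, -⟩ := hT 0
  set y : ℕ → ℕ := fun i => if i < n0 then y0 i else j (i - n0) with hy
  have key : ∀ k, br y (n0 + k) = s k := by
    intro k
    induction k with
    | zero =>
      rw [← h0]
      refine br_congr _ fun i hi => ?_
      simp only [hy]
      rw [if_pos (by omega)]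
    | succ k ih =>
      rw [hs k]
      show ch (y (n0 + k)) (br y (n0 + k)) = _
      rw [ih]
      congr 1
      simp only [hy]
      rw [if_neg (by omega)]
      congr 1
      omega
  refine ⟨y, fun n => ?_⟩
  have h1 := hT n
  rw [← key n] at h1
  exact Tr_br h1 n (by omega)

theorem chain_of_mem_A {τ : ℕ → Bool} (h : τ ∈ A) : ∃ y : ℕ → ℕ, ∀ n, Tr τ (br y n) := by
  obtain ⟨y, hy⟩ := h
  exact ⟨y, fun n => ⟨y, n, rfl, fun m _ => hy m⟩⟩

theorem polish_bool : PolishSpace Bool := by
  have h : Topology.IsClosedEmbedding Bool.toNat :=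
    Topology.IsClosedEmbedding.of_continuous_injective_isClosedMap continuous_of_discreteTopology
      (fun a b h => by cases a <;> cases b <;> simp_all) (fun s _ => isClosed_discrete _)
  exact h.polishSpace

open Classical in
theorem not_measurable_A : ¬ MeasurableSet A := by
  haveI := polish_bool
  intro hA
  have hA' : MeasureTheory.AnalyticSet Aᶜ := hA.compl.analyticSet
  rw [MeasureTheory.AnalyticSet] at hA'
  rcases hA' with h | ⟨f, hf, hr⟩
  · have h1 : (fun _ => false : ℕ → Bool) ∈ Aᶜ := by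
      rintro ⟨y, hy⟩
      have := hy 0
      simp [good] at this
    rw [h] at h1
    exact h1
  · set τ₀ : ℕ → Bool := fun c => decide (∃ (y : ℕ → ℕ) (n : ℕ), c = Nat.pair (pre (f y) n) (br y n))
      with hτ
    have key : ∀ w : ℕ → Bool,
        (∃ y : ℕ → ℕ, ∀ n, τ₀ (Nat.pair (pre w n) (br y n)) = true) ↔ w ∈ Set.range f := by
      intro w
      constructor
      · rintro ⟨y, hy⟩
        have h1 : ∀ n, ∃ y' : ℕ → ℕ, (∀ i < n, y' i = y i) ∧ (∀ i < n, f y' i = w i) := by
          intro n
          have h2 := hy n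
          simp only [hτ, decide_eq_true_eq] at h2
          obtain ⟨y', m, h3⟩ := h2
          have h4 := Nat.pair_eq_pair.1 h3
          obtain ⟨h5, h6⟩ := br_inj _ _ _ _ h4.2
          subst h5
          obtain ⟨-, h7⟩ := br_inj _ _ _ _ (h4.1 : br _ n = br _ n)
          refine ⟨y', fun i hi => (h6 i hi).symm, fun i hi => ?_⟩
          have h8 := h7 i hi
          cases hw : w i <;> cases hf : f y' i <;> simp_all
        choose g hg1 hg2 using h1
        refine ⟨y, ?_⟩
        have h2 : Filter.Tendsto g Filter.atTop (nhds y) := by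
          rw [tendsto_pi_nhds]
          intro i
          refine tendsto_const_nhds.congr' ?_
          filter_upwards [Filter.eventually_gt_atTop i] with n hn
          exact (hg1 n i hn).symm
        have h3 := (hf.tendsto y).comp h2
        have h4 : Filter.Tendsto (fun n => f (g n)) Filter.atTop (nhds w) := by
          rw [tendsto_pi_nhds]
          intro i
          refine tendsto_const_nhds.congr' ?_
          filter_upwards [Filter.eventually_gt_atTop i] with n hn
          exact (hg2 n i hn).symm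
        exact tendsto_nhds_unique h3 h4
      · rintro ⟨y, rfl⟩
        refine ⟨y, fun n => ?_⟩
        simp only [hτ, decide_eq_true_eq]
        exact ⟨y, n, rfl⟩
    have h1 := key τ₀
    rw [hr] at h1
    have h2 : τ₀ ∈ A ↔ (∃ y : ℕ → ℕ, ∀ n, τ₀ (Nat.pair (pre τ₀ n) (br y n)) = true) := Iff.rfl
    rw [← h2] at h1
    by_cases h3 : τ₀ ∈ A
    · exact h1.1 h3 h3
    · exact h3 (h1.2 h3)

end Pool.Agent.X194.RB
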