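import Pool.Agent.X194.RB.Branch

/-!
# Reduction of the diagonal set to sequences with an irrational rotation limit
-/

namespace Pool.Agent.X194.RB

open Filter Topology

/-- The sequence of test exponents. -/
noncomputable def sq (T : ℕ → Prop) (k : ℕ) : ℤ :=
  tst T (Nat.unpair k).1 (Nat.unpair (Nat.unpair k).2).1 (Nat.unpair (Nat.unpair k).2).2

theorem pass_of_tendsto {T : ℕ → Prop} {z : ℝ}
    (h : Tendsto (fun k => N ((sq T k : ℝ) * z)) atTop (𝓝 0)) : Pass T z := by
  intro ε hε
  have h1 := (h.eventually (gt_mem_nhds hε))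
  obtain ⟨K, hK⟩ := eventually_atTop.1 h1
  refine ⟨K, fun q p r hp => ?_⟩
  have h2 := hK (Nat.pair q (Nat.pair p r)) (hp.trans ((Nat.left_le_pair p r).trans
    (Nat.right_le_pair q _)))
  simpa [sq] using h2

theorem tendsto_of_pass {T : ℕ → Prop} {z : ℝ} (h : Pass T z) :
    Tendsto (fun k => N ((sq T k : ℝ) * z)) atTop (𝓝 0) := by
  rw [Metric.tendsto_atTop]
  intro ε hε
  obtain ⟨K, hK⟩ := h ε hε
  set F : Finset ℕ := ((Finset.range 4 ×ˢ Finset.range K) ×ˢ
    Finset.range ((∑ p ∈ Finset.range K, RR p) + 1)).image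
      (fun x => Nat.pair x.1.1 (Nat.pair x.1.2 x.2)) with hF
  refine ⟨F.sup id + 1, fun k hk => ?_⟩
  rw [Real.dist_eq, sub_zero, abs_of_nonneg (N_nonneg _)]
  set q := (Nat.unpair k).1 with hq
  set p := (Nat.unpair (Nat.unpair k).2).1 with hp
  set r := (Nat.unpair (Nat.unpair k).2).2 with hr
  have hsq : sq T k = tst T q p r := rfl
  rw [hsq]
  by_cases hpK : K ≤ p
  · exact hK q p r hpK
  have hzero : tst T q p r = 0 → N ((tst T q p r : ℝ) * z) < ε := by
    intro h0
    rw [h0]; simp [N_zero, hε]
  by_cases hq4 : 4 ≤ q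
  · exact hzero (tst_four T hq4)
  by_cases hrR : r ≤ RR p
  swap
  · exact hzero (tst_big T hrR)
  exfalso
  have h1 : RR p ≤ ∑ p ∈ Finset.range K, RR p :=
    Finset.single_le_sum (f := fun p => RR p) (fun _ _ => Nat.zero_le _)
      (Finset.mem_range.2 (by omega))
  have h2 : k ∈ F := by
    rw [hF, Finset.mem_image]
    refine ⟨((q, p), r), ?_, ?_⟩
    · simp only [Finset.mem_product, Finset.mem_range]
      omega
    · simp only [hq, hp, hr, Nat.pair_unpair]
  have h3 : k ≤ F.sup id := Finset.le_sup (f := id) h2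
  omega

theorem measurable_sq : Measurable (fun τ : ℕ → Bool => (fun k => sq (Tr τ) k : ℕ → ℤ)) := by
  classical
  rw [measurable_pi_iff]
  intro k
  have h : ∀ q p r : ℕ, Measurable (fun τ : ℕ → Bool => tst (Tr τ) q p r) := by
    intro q p r
    have h1 : MeasurableSet {τ : ℕ → Bool | Tr τ (par p)} := (isOpen_Tr (par p)).measurableSet
    by_cases hr : r ≤ RR p
    · by_cases hq : q = 2
      · subst hq
        have h2 : (fun τ : ℕ → Bool => tst (Tr τ) 2 p r) = fun τ =>
            if τ ∈ {τ : ℕ → Bool | Tr τ (par p)} then X p r - X (dn p) r - X (sk p) r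
            else X p r := by
          funext τ
          by_cases hT : Tr τ (par p)
          · rw [tst_two_pos hr hT, if_pos (show τ ∈ {τ : ℕ → Bool | Tr τ (par p)} from hT)]
          · rw [tst_two_neg hr hT, if_neg (show τ ∉ {τ : ℕ → Bool | Tr τ (par p)} from hT)]
        rw [h2]
        exact Measurable.ite h1 measurable_const measurable_const
      · have h2 : (fun τ : ℕ → Bool => tst (Tr τ) q p r) = fun _ => tst (fun _ => True) q p r := by
          funext τ
          unfold tst
          simp only [if_neg hq]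
        rw [h2]
        exact measurable_const
    · have h2 : (fun τ : ℕ → Bool => tst (Tr τ) q p r) = fun _ => 0 := by
        funext τ
        exact tst_big _ hr
      rw [h2]
      exact measurable_const
  exact h _ _ _

/-- Translation between real numbers and the circle. -/
theorem tendsto_iff (θ : ℝ) (n : ℕ → ℤ) :
    Tendsto (fun k => (Complex.exp ((2 * Real.pi * θ : ℝ) * Complex.I)) ^ (n k)) atTop (𝓝 1) ↔
      Tendsto (fun k => N ((n k : ℝ) * θ)) atTop (𝓝 0) := by
  have hind : Topology.IsInducing (fun x : UnitAddCircle => ((AddCircle.toCircle x : Circle) : ℂ)) := by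
    have h1 : Topology.IsInducing (fun x : UnitAddCircle => (AddCircle.toCircle x : Circle)) := by
      have h2 := (AddCircle.homeomorphCircle (T := (1 : ℝ)) one_ne_zero).isInducing
      have h3 : (fun x : UnitAddCircle => (AddCircle.toCircle x : Circle)) =
          (AddCircle.homeomorphCircle (T := (1 : ℝ)) one_ne_zero) := by
        funext x
        rw [AddCircle.homeomorphCircle_apply]
      rw [h3]; exact h2
    exact Topology.IsInducing.subtypeVal.comp h1
  have key : ∀ k, ((AddCircle.toCircle (((n k : ℝ) * θ : ℝ) : UnitAddCircle) : Circle) : ℂ) =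
      (Complex.exp ((2 * Real.pi * θ : ℝ) * Complex.I)) ^ (n k) := by
    intro k
    rw [AddCircle.toCircle_apply_mk, Circle.coe_exp, ← Complex.exp_int_mul]
    congr 1
    push_cast
    ring
  have h1 : Tendsto (fun k => (((n k : ℝ) * θ : ℝ) : UnitAddCircle)) atTop (𝓝 0) ↔
      Tendsto (fun k => (Complex.exp ((2 * Real.pi * θ : ℝ) * Complex.I)) ^ (n k)) atTop (𝓝 1) := by
    rw [hind.tendsto_nhds_iff]
    have h2 : ((AddCircle.toCircle (0 : UnitAddCircle) : Circle) : ℂ) = 1 := by
      rw [AddCircle.toCircle_zero]; simp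
    rw [h2]
    have h3 : ((fun x : UnitAddCircle => ((AddCircle.toCircle x : Circle) : ℂ)) ∘
        fun k => (((n k : ℝ) * θ : ℝ) : UnitAddCircle)) =
        fun k => (Complex.exp ((2 * Real.pi * θ : ℝ) * Complex.I)) ^ (n k) := by
      funext k
      exact key k
    rw [h3]
  rw [← h1, tendsto_zero_iff_norm_tendsto_zero]
  have h4 : (fun k => ‖(((n k : ℝ) * θ : ℝ) : UnitAddCircle)‖) = fun k => N ((n k : ℝ) * θ) := by
    funext k
    rw [UnitAddCircle.norm_eq]
    rfl
  rw [h4]

end Pool.Agent.X194.RB
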