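import Mathlib

/-!
# Distance to the nearest integer and digits
-/

namespace Pool.Agent.X194.RB

/-- Distance to the nearest integer. -/
noncomputable def N (x : ℝ) : ℝ := |x - round x|

theorem N_le (x : ℝ) (m : ℤ) : N x ≤ |x - m| := round_le x m

theorem N_nonneg (x : ℝ) : 0 ≤ N x := abs_nonneg _

theorem exists_of_N_lt {x δ : ℝ} (h : N x < δ) : ∃ m : ℤ, |x - m| < δ := ⟨round x, h⟩

theorem abs_le_abs_sub_int {s : ℝ} (h : |s| ≤ 1 / 2) (m : ℤ) : |s| ≤ |s - m| := by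
  by_cases hm : m = 0
  · subst hm; simp
  · have h1 : (1 : ℝ) ≤ |(m : ℝ)| := by
      have : (1 : ℤ) ≤ |m| := Int.one_le_abs hm
      exact_mod_cast this
    have h2 : |(m : ℝ)| - |s| ≤ |s - m| := by
      rw [abs_sub_comm]; exact abs_sub_abs_le_abs_sub _ _
    linarith

/-- If all small multiples of `x` are close to integers, then `x` is very small. -/
theorem range_lemma {x : ℝ} (hx : |x| ≤ 1 / 2) {C : ℕ}
    (h : ∀ r : ℕ, r ≤ C → N (r * x) < 1 / 4) : ∀ r : ℕ, r ≤ C → |(r : ℝ) * x| < 1 / 4 := by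
  intro r
  induction r with
  | zero => intro _; simp
  | succ r ih =>
    intro hr
    have h1 := ih (by omega)
    have hC : 1 ≤ C := by omega
    have hx1 : |x| < 1 / 4 := by
      obtain ⟨m, hm⟩ := exists_of_N_lt (h 1 hC)
      have := abs_le_abs_sub_int hx m
      simp only [Nat.cast_one, one_mul] at hm
      linarith
    have h2 : |((r + 1 : ℕ) : ℝ) * x| ≤ 1 / 2 := by
      have h3 : ((r + 1 : ℕ) : ℝ) * x = r * x + x := by push_cast; ring
      rw [h3]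
      have := abs_add_le ((r : ℝ) * x) x
      linarith
    obtain ⟨m, hm⟩ := exists_of_N_lt (h (r + 1) hr)
    have := abs_le_abs_sub_int h2 m
    linarith

/-- The denominators. -/
def W : ℕ → ℕ
  | 0 => 2
  | k + 1 => W k * (W k ^ 3 + 1)

theorem two_le_W : ∀ k, 2 ≤ W k
  | 0 => le_rfl
  | k + 1 => by
      have := two_le_W k
      show 2 ≤ W k * (W k ^ 3 + 1)
      nlinarith [Nat.zero_le (W k ^ 3)]

theorem W_succ (k : ℕ) : W (k + 1) = W k * (W k ^ 3 + 1) := rfl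

theorem W_pos (k : ℕ) : (0 : ℝ) < W k := by
  have := two_le_W k
  exact_mod_cast (by omega : 0 < W k)

theorem W_two (k : ℕ) : (2 : ℝ) ≤ W k := by exact_mod_cast two_le_W k

theorem W_strictMono : StrictMono W := by
  refine strictMono_nat_of_lt_succ fun k => ?_
  have := two_le_W k
  rw [W_succ]
  have h3 : 1 ≤ W k ^ 3 := Nat.one_le_pow _ _ (by omega)
  nlinarith

theorem lt_W (k : ℕ) : k < W k := by
  induction k with
  | zero => exact Nat.zero_lt_two
  | succ k ih =>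
    have := W_strictMono (Nat.lt_succ_self k)
    have h2 : W k < W (k + 1) := this
    omega

/-- Digits of a real number. -/
structure Dig (z : ℝ) (J : ℕ) (a : ℕ → ℤ) (e : ℕ → ℝ) : Prop where
  cong : ∀ k, J ≤ k → ∃ m : ℤ, (W k : ℝ) * z = m + e k
  rc : ∀ k, J ≤ k → e (k + 1) = ((W k : ℝ) ^ 3 + 1) * e k - W k * a k
  ebd : ∀ k, J ≤ k → |e k| ≤ 1 / W k
  abd : ∀ k, J ≤ k → |(a k : ℝ)| ≤ W k

/-- The exponent testing the digit number `j` with denominator `4 r`. -/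
def X (j r : ℕ) : ℤ := ((W j ^ 2 / (4 * r) * W j : ℕ) : ℤ)

theorem Dig.test {z : ℝ} {J : ℕ} {a : ℕ → ℤ} {e : ℕ → ℝ} (D : Dig z J a e) {k : ℕ} (hk : J ≤ k)
    {r : ℕ} (hr : 1 ≤ r) : ∃ m : ℤ, |(X k r : ℝ) * z - (m + a k / (4 * r))| ≤ 3 / W k := by
  obtain ⟨m, hm⟩ := D.cong k hk
  have hrc := D.rc k hk
  have he := D.ebd (k + 1) (by omega)
  have ha := D.abd k hk
  have hW := W_pos k
  have hW2 := W_two k
  have hW1 := W_two (k + 1)
  set w : ℝ := (W k : ℝ) with hw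
  set c : ℕ := W k ^ 2 / (4 * r) with hc
  refine ⟨c * m, ?_⟩
  have hrpos : (0 : ℝ) < 4 * r := by
    have : (1 : ℝ) ≤ r := by exact_mod_cast hr
    linarith
  -- c = w^2/(4r) - ρ, 0 ≤ ρ < 1
  have hc1 : (c : ℝ) ≤ w ^ 2 / (4 * r) := by
    have := @Nat.cast_div_le ℝ _ _ _ (W k ^ 2) (4 * r)
    rw [hw]; push_cast at this ⊢; simpa [hc] using this
  have hc2 : w ^ 2 / (4 * r) < c + 1 := by
    rw [div_lt_iff₀ hrpos]
    have h1 : W k ^ 2 < (4 * r) * (c + 1) := by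
      have := Nat.lt_mul_div_succ (W k ^ 2) (show 0 < 4 * r by omega)
      simpa [hc] using this
    have h2 : ((W k ^ 2 : ℕ) : ℝ) < (((4 * r) * (c + 1) : ℕ) : ℝ) := by exact_mod_cast h1
    push_cast at h2
    rw [hw]; linarith
  have hX : (X k r : ℝ) * z = c * (w * z) := by
    have h0 : X k r = ((c * W k : ℕ) : ℤ) := rfl
    rw [h0]; push_cast; ring
  have hp : (0 : ℝ) < w ^ 3 + 1 := by positivity
  have hek : e k = (w * a k + e (k + 1)) / (w ^ 3 + 1) := by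
    rw [eq_div_iff hp.ne']; rw [hrc]; ring
  have hval : (X k r : ℝ) * z - (((c * m : ℤ) : ℝ) + a k / (4 * r))
      = a k * ((c * w) / (w ^ 3 + 1) - 1 / (4 * r)) + c * e (k + 1) / (w ^ 3 + 1) := by
    rw [hX, hm, hek]; push_cast; field_simp; ring
  rw [hval]
  set ρ : ℝ := w ^ 2 / (4 * r) - c with hρ
  have hρ0 : 0 ≤ ρ := by linarith
  have hρ1 : ρ < 1 := by linarith
  have h4r : (1 : ℝ) / (4 * r) ≤ 1 := by
    rw [div_le_one hrpos]
    have : (1 : ℝ) ≤ r := by exact_mod_cast hr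
    linarith
  have h4r0 : (0 : ℝ) ≤ 1 / (4 * r) := by positivity
  have h5 : (c * w) / (w ^ 3 + 1) - 1 / (4 * r) = -(1 / (4 * r) + ρ * w) / (w ^ 3 + 1) := by
    have : (c : ℝ) = w ^ 2 * (1 / (4 * r)) - ρ := by rw [hρ]; ring
    rw [this]; field_simp; ring
  have h6 : |(c * w) / (w ^ 3 + 1) - 1 / (4 * r)| ≤ (1 + w) / (w ^ 3 + 1) := by
    rw [h5, abs_div, abs_neg, abs_of_pos hp]
    have h7 : |1 / (4 * (r : ℝ)) + ρ * w| ≤ 1 + w := by
      rw [abs_of_nonneg (by positivity)]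
      nlinarith
    gcongr
  have h8 : |(a k : ℝ) * ((c * w) / (w ^ 3 + 1) - 1 / (4 * r))| ≤ 2 / w := by
    rw [abs_mul]
    calc |(a k : ℝ)| * |(c * w) / (w ^ 3 + 1) - 1 / (4 * r)| ≤ w * ((1 + w) / (w ^ 3 + 1)) := by
          gcongr
      _ ≤ 2 / w := by
          rw [← mul_div_assoc, div_le_div_iff₀ hp hW]
          nlinarith [mul_pos hW hW, pow_pos hW 3]
  have hc0 : (0 : ℝ) ≤ c := Nat.cast_nonneg c
  have hcw : (c : ℝ) ≤ w ^ 2 := by
    have : w ^ 2 / (4 * r) ≤ w ^ 2 := by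
      rw [div_le_iff₀ hrpos]
      have : (1 : ℝ) ≤ 4 * r := by
        have : (1 : ℝ) ≤ r := by exact_mod_cast hr
        linarith
      nlinarith [sq_nonneg w]
    linarith
  have he1 : |e (k + 1)| ≤ 1 := by
    refine he.trans ?_
    rw [div_le_one (by linarith)]; linarith
  have h9 : |(c : ℝ) * e (k + 1) / (w ^ 3 + 1)| ≤ 1 / w := by
    rw [abs_div, abs_of_pos hp, abs_mul, abs_of_nonneg hc0]
    calc (c : ℝ) * |e (k + 1)| / (w ^ 3 + 1) ≤ w ^ 2 * 1 / (w ^ 3 + 1) := by gcongr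
      _ ≤ 1 / w := by
          rw [div_le_div_iff₀ hp hW]; nlinarith
  calc _ ≤ 2 / w + 1 / w := (abs_add_le _ _).trans (add_le_add h8 h9)
    _ = 3 / w := by ring

end Pool.Agent.X194.RB
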