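import Pool.Agent.X194.RB.Diag
import Pool.Agent.X194.RB.Num

/-!
# The test exponents, and the extraction of a branch
-/

namespace Pool.Agent.X194.RB

/-- The index of a node inside its family. -/
def idx (p : ℕ) : ℕ := (Nat.unpair (p - 1)).1

/-- The tree node attached to a position. -/
def par (p : ℕ) : ℕ := (Nat.unpair (p - 1)).2

/-- Going down. -/
def dn (p : ℕ) : ℕ := ch 0 p

/-- Skipping to the next sibling. -/
def sk (p : ℕ) : ℕ := ch (idx p + 1) (par p)

theorem idx_ch (j e : ℕ) : idx (ch j e) = j := by simp [idx, ch]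

theorem par_ch (j e : ℕ) : par (ch j e) = e := by simp [par, ch]

theorem ch_idx_par {p : ℕ} (hp : 1 ≤ p) : ch (idx p) (par p) = p := by
  unfold ch idx par
  rw [Nat.pair_unpair]; omega

theorem lt_dn (p : ℕ) : p < dn p := lt_ch 0 p

theorem ch_lt_ch {i j : ℕ} (h : i < j) (e : ℕ) : ch i e < ch j e := by
  unfold ch
  have := Nat.pair_lt_pair_left e h
  omega

theorem ch_le_ch {i j : ℕ} (h : i ≤ j) (e : ℕ) : ch i e ≤ ch j e := by
  rcases Nat.lt_or_eq_of_le h with h | h
  · exact (ch_lt_ch h e).le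
  · rw [h]

theorem lt_sk {p : ℕ} (hp : 1 ≤ p) : p < sk p := by
  conv_lhs => rw [← ch_idx_par hp]
  exact ch_lt_ch (Nat.lt_succ_self _) _

/-- The number of tests at a position. -/
def RR (p : ℕ) : ℕ := W p + W (dn p) + W (sk p)

open Classical in
/-- The test exponents. -/
noncomputable def tst (T : ℕ → Prop) (q p r : ℕ) : ℤ :=
  if r ≤ RR p then
    if q = 0 then (if r ≤ W p then (r : ℤ) * W p else 0)
    else if q = 1 then (if r ≤ W p then (r : ℤ) * W p ^ 3 else 0)
    else if q = 2 then (if T (par p) then X p r - X (dn p) r - X (sk p) r else X p r)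
    else if q = 3 then X p (r * (par p + 1))
    else 0
  else 0

/-- The tests pass for `z`. -/
def Pass (T : ℕ → Prop) (z : ℝ) : Prop :=
  ∀ ε : ℝ, 0 < ε → ∃ K : ℕ, ∀ q p r : ℕ, K ≤ p → N ((tst T q p r : ℝ) * z) < ε

theorem W_le_RR (p : ℕ) : W p ≤ RR p := by unfold RR; omega

theorem tst_zero (T : ℕ → Prop) {p r : ℕ} (h : r ≤ W p) : tst T 0 p r = (r : ℤ) * W p := by
  have := W_le_RR p
  unfold tst
  rw [if_pos (by omega), if_pos rfl, if_pos h]

theorem tst_one (T : ℕ → Prop) {p r : ℕ} (h : r ≤ W p) : tst T 1 p r = (r : ℤ) * W p ^ 3 := by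
  have := W_le_RR p
  unfold tst
  rw [if_pos (by omega), if_neg (by decide), if_pos rfl, if_pos h]

theorem tst_two_pos {T : ℕ → Prop} {p r : ℕ} (h : r ≤ RR p) (hT : T (par p)) :
    tst T 2 p r = X p r - X (dn p) r - X (sk p) r := by
  unfold tst
  rw [if_pos h, if_neg (by decide), if_neg (by decide), if_pos rfl, if_pos hT]

theorem tst_two_neg {T : ℕ → Prop} {p r : ℕ} (h : r ≤ RR p) (hT : ¬ T (par p)) :
    tst T 2 p r = X p r := by
  unfold tst
  rw [if_pos h, if_neg (by decide), if_neg (by decide), if_pos rfl, if_neg hT]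

theorem tst_three (T : ℕ → Prop) {p r : ℕ} (h : r ≤ RR p) :
    tst T 3 p r = X p (r * (par p + 1)) := by
  unfold tst
  rw [if_pos h, if_neg (by decide), if_neg (by decide), if_neg (by decide), if_pos rfl]

theorem tst_big (T : ℕ → Prop) {q p r : ℕ} (h : ¬ r ≤ RR p) : tst T q p r = 0 := by
  unfold tst
  rw [if_neg h]

theorem tst_four (T : ℕ → Prop) {q p r : ℕ} (h : 4 ≤ q) : tst T q p r = 0 := by
  unfold tst
  rw [if_neg (by omega : ¬ q = 0), if_neg (by omega : ¬ q = 1), if_neg (by omega : ¬ q = 2),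
    if_neg (by omega : ¬ q = 3)]
  simp

theorem exists_dig {T : ℕ → Prop} {z : ℝ} (h : Pass T z) : ∃ J a e, Dig z J a e := by
  obtain ⟨K, hK⟩ := h (1 / 4) (by norm_num)
  set e : ℕ → ℝ := fun k => (W k : ℝ) * z - round ((W k : ℝ) * z) with he
  set y : ℕ → ℝ := fun k => (W k : ℝ) ^ 3 * z - round ((W k : ℝ) ^ 3 * z) with hy
  set a : ℕ → ℤ := fun k => round ((W k : ℝ) ^ 3 * z) - (W k : ℤ) ^ 2 * round ((W k : ℝ) * z)
    with ha
  have e1 : ∀ k, K ≤ k → |(W k : ℝ) * e k| < 1 / 4 := by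
    intro k hk
    refine range_lemma (C := W k) (abs_sub_round _) (fun r hr => ?_) (W k) le_rfl
    have h1 := hK 0 k r hk
    rw [tst_zero T hr] at h1
    refine lt_of_le_of_lt ?_ h1
    refine (N_le _ (round ((((r : ℤ) * W k : ℤ) : ℝ) * z) - r * round ((W k : ℝ) * z))).trans
      (le_of_eq ?_)
    unfold N
    congr 1
    push_cast
    ring
  have y1 : ∀ k, K ≤ k → |(W k : ℝ) * y k| < 1 / 4 := by
    intro k hk
    refine range_lemma (C := W k) (abs_sub_round _) (fun r hr => ?_) (W k) le_rfl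
    have h1 := hK 1 k r hk
    rw [tst_one T hr] at h1
    refine lt_of_le_of_lt ?_ h1
    refine (N_le _ (round ((((r : ℤ) * W k ^ 3 : ℤ) : ℝ) * z) -
      r * round ((W k : ℝ) ^ 3 * z))).trans (le_of_eq ?_)
    unfold N
    congr 1
    push_cast
    ring
  have eb : ∀ k, K ≤ k → |e k| < 1 / (4 * W k) := by
    intro k hk
    have h1 := e1 k hk
    have hW := W_pos k
    rw [abs_mul, abs_of_pos hW] at h1
    rw [lt_div_iff₀ (by positivity)]
    linarith
  have yb : ∀ k, K ≤ k → |y k| < 1 / 8 := by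
    intro k hk
    have h1 := y1 k hk
    have hW := W_pos k
    have hW2 := W_two k
    rw [abs_mul, abs_of_pos hW] at h1
    nlinarith [abs_nonneg (y k)]
  have eb8 : ∀ k, K ≤ k → |e k| < 1 / 8 := by
    intro k hk
    have h1 := e1 k hk
    have hW := W_pos k
    have hW2 := W_two k
    rw [abs_mul, abs_of_pos hW] at h1
    nlinarith [abs_nonneg (e k)]
  have hay : ∀ k, (a k : ℝ) = (W k : ℝ) ^ 2 * e k - y k := by
    intro k
    simp only [ha, he, hy]
    push_cast
    ring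
  refine ⟨K, a, e, ⟨?_, ?_, ?_, ?_⟩⟩
  · intro k _
    exact ⟨round ((W k : ℝ) * z), by simp only [he]; ring⟩
  · intro k hk
    have h1 : e (k + 1) - (W k * y k + e k) =
        ((-(round ((W (k + 1) : ℝ) * z)) + W k * round ((W k : ℝ) ^ 3 * z) +
          round ((W k : ℝ) * z) : ℤ) : ℝ) := by
      simp only [he, hy]
      rw [W_succ]
      push_cast
      ring
    have h2 : |e (k + 1) - (W k * y k + e k)| < 1 := by
      have h3 := eb8 (k + 1) (by omega)
      have h4 := eb8 k hk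
      have h5 := y1 k hk
      have h6 : |e (k + 1) - (W k * y k + e k)| ≤ |e (k + 1)| + (|W k * y k| + |e k|) :=
        (abs_sub _ _).trans (add_le_add le_rfl (abs_add_le _ _))
      linarith
    rw [h1] at h2
    have h3 : (-(round ((W (k + 1) : ℝ) * z)) + W k * round ((W k : ℝ) ^ 3 * z) +
          round ((W k : ℝ) * z) : ℤ) = 0 := by
      have : |(-(round ((W (k + 1) : ℝ) * z)) + W k * round ((W k : ℝ) ^ 3 * z) +
          round ((W k : ℝ) * z) : ℤ)| < 1 := by exact_mod_cast h2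
      exact Int.abs_lt_one_iff.1 this
    rw [h3, Int.cast_zero] at h1
    have h4 : e (k + 1) = W k * y k + e k := by linarith
    rw [h4, hay k]
    ring
  · intro k hk
    refine (eb k hk).le.trans ?_
    have hW := W_pos k
    apply one_div_le_one_div_of_le hW
    linarith
  · intro k hk
    rw [hay k]
    have h1 := e1 k hk
    have h2 := yb k hk
    have hW := W_pos k
    have hW2 := W_two k
    have h3 : |(W k : ℝ) ^ 2 * e k - y k| ≤ W k * |(W k : ℝ) * e k| + |y k| := by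
      refine (abs_sub _ _).trans (add_le_add (le_of_eq ?_) le_rfl)
      rw [abs_mul, abs_mul, abs_of_pos hW, abs_of_pos (by positivity)]; ring
    nlinarith [abs_nonneg ((W k : ℝ) * e k)]

theorem detect {s v δ ε : ℝ} {m : ℤ} (hs : |s| ≤ 1 / 2) (h1 : |v - (m + s)| ≤ δ) (h2 : N v < ε) :
    |s| < δ + ε := by
  obtain ⟨m', hm'⟩ := exists_of_N_lt h2
  have h3 := abs_le_abs_sub_int hs (m' - m)
  have h4 : |s - ((m' - m : ℤ) : ℝ)| ≤ |v - (m + s)| + |v - m'| := by
    have : s - ((m' - m : ℤ) : ℝ) = -(v - (m + s)) + (v - m') := by push_cast; ring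
    rw [this]
    refine (abs_add_le _ _).trans ?_
    rw [abs_neg]
  linarith

theorem abs_div_natAbs {D : ℤ} (hD : D ≠ 0) {c : ℝ} (hc : 0 < c) :
    |(D : ℝ) / (c * (D.natAbs : ℝ))| = 1 / c := by
  have h1 : ((D.natAbs : ℕ) : ℝ) = |(D : ℝ)| := by
    rw [Nat.cast_natAbs, Int.cast_abs]
  have h2 : 0 < |(D : ℝ)| := abs_pos.2 (by exact_mod_cast hD)
  rw [h1, abs_div, abs_mul, abs_abs, abs_of_pos hc]
  field_simp

theorem le_one_div_W {p k : ℕ} (h : p ≤ k) : 3 / (W k : ℝ) ≤ 3 / W p := by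
  have h1 : (W p : ℝ) ≤ W k := by exact_mod_cast W_strictMono.monotone h
  have := W_pos p
  gcongr

theorem digit_eqs {T : ℕ → Prop} {z : ℝ} (h : Pass T z) {J : ℕ} {a : ℕ → ℤ} {e : ℕ → ℝ}
    (D : Dig z J a e) : ∃ J' : ℕ, J ≤ J' ∧ 1 ≤ J' ∧
      (∀ p, J' ≤ p → T (par p) → a p = a (dn p) + a (sk p)) ∧
      (∀ p, J' ≤ p → ¬ T (par p) → a p = 0) := by
  obtain ⟨K, hK⟩ := h (1 / 8) (by norm_num)
  refine ⟨max (max J K) 144, by omega, by omega, ?_, ?_⟩
  · intro p hp hT
    by_contra hne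
    have hDne : a p - a (dn p) - a (sk p) ≠ 0 := by omega
    set r : ℕ := (a p - a (dn p) - a (sk p)).natAbs with hr
    have hr1 : 1 ≤ r := by omega
    have hd := lt_dn p
    have hs := lt_sk (p := p) (by omega)
    have b1 := D.abd p (by omega)
    have b2 := D.abd (dn p) (by omega)
    have b3 := D.abd (sk p) (by omega)
    have hrR : r ≤ RR p := by
      have c1 : |a p| ≤ (W p : ℤ) := by exact_mod_cast b1
      have c2 : |a (dn p)| ≤ (W (dn p) : ℤ) := by exact_mod_cast b2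
      have c3 : |a (sk p)| ≤ (W (sk p) : ℤ) := by exact_mod_cast b3
      unfold RR
      rw [abs_le] at c1 c2 c3
      omega
    obtain ⟨m1, t1⟩ := D.test (k := p) (by omega) hr1
    obtain ⟨m2, t2⟩ := D.test (k := dn p) (by omega) hr1
    obtain ⟨m3, t3⟩ := D.test (k := sk p) (by omega) hr1
    have g2 := le_one_div_W hd.le
    have g3 := le_one_div_W hs.le
    have hWp : 3 / (W p : ℝ) ≤ 1 / 48 := by
      have h1 : (144 : ℝ) ≤ W p := by
        have := lt_W p
        exact_mod_cast (by omega : 144 ≤ W p)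
      rw [div_le_div_iff₀ (W_pos p) (by norm_num)]; linarith
    have hN := hK 2 p r (by omega)
    rw [tst_two_pos hrR hT] at hN
    have hs4 := abs_div_natAbs hDne (c := 4) (by norm_num)
    have hfin := detect (s := ((a p - a (dn p) - a (sk p) : ℤ) : ℝ) / (4 * (r : ℝ)))
      (v := ((X p r - X (dn p) r - X (sk p) r : ℤ) : ℝ) * z) (δ := 3 / W p + 3 / W p + 3 / W p)
      (m := m1 - m2 - m3) (by rw [hs4]; norm_num) ?_ hN
    · rw [hs4] at hfin; linarith
    · have : ((X p r - X (dn p) r - X (sk p) r : ℤ) : ℝ) * z - (((m1 - m2 - m3 : ℤ) : ℝ) +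
          ((a p - a (dn p) - a (sk p) : ℤ) : ℝ) / (4 * (r : ℝ))) =
          (X p r * z - (m1 + a p / (4 * r))) - (X (dn p) r * z - (m2 + a (dn p) / (4 * r)))
          - (X (sk p) r * z - (m3 + a (sk p) / (4 * r))) := by push_cast; ring
      rw [this]
      refine (abs_sub _ _).trans (add_le_add ((abs_sub _ _).trans (add_le_add t1 (t2.trans g2)))
        (t3.trans g3))
  · intro p hp hT
    by_contra hne
    set r : ℕ := (a p).natAbs with hr
    have hr1 : 1 ≤ r := by omega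
    have b1 := D.abd p (by omega)
    have hrR : r ≤ RR p := by
      have c1 : |a p| ≤ (W p : ℤ) := by exact_mod_cast b1
      unfold RR
      rw [abs_le] at c1
      omega
    obtain ⟨m1, t1⟩ := D.test (k := p) (by omega) hr1
    have hWp : 3 / (W p : ℝ) ≤ 1 / 48 := by
      have h1 : (144 : ℝ) ≤ W p := by
        have := lt_W p
        exact_mod_cast (by omega : 144 ≤ W p)
      rw [div_le_div_iff₀ (W_pos p) (by norm_num)]; linarith
    have hN := hK 2 p r (by omega)
    rw [tst_two_neg hrR hT] at hN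
    have hs4 := abs_div_natAbs hne (c := 4) (by norm_num)
    have hfin := detect (s := ((a p : ℤ) : ℝ) / (4 * (r : ℝ)))
      (v := ((X p r : ℤ) : ℝ) * z) (δ := 3 / W p)
      (m := m1) (by rw [hs4]; norm_num) t1 hN
    rw [hs4] at hfin
    linarith

theorem digit_vanish {T : ℕ → Prop} {z : ℝ} (h : Pass T z) {J : ℕ} {a : ℕ → ℤ} {e : ℕ → ℝ}
    (D : Dig z J a e) (e₀ : ℕ) : ∃ M : ℕ, ∀ i, M ≤ i → a (ch i e₀) = 0 := by
  have hpos : (0 : ℝ) < e₀ + 1 := by positivity
  obtain ⟨K, hK⟩ := h (1 / (8 * (e₀ + 1))) (by positivity)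
  refine ⟨J + K + 24 * (e₀ + 1), fun i hi => ?_⟩
  by_contra hne
  have hip : i ≤ ch i e₀ := by
    unfold ch
    have := Nat.left_le_pair i e₀
    omega
  set p : ℕ := ch i e₀ with hp
  have hpar : par p = e₀ := par_ch i e₀
  set r : ℕ := (a p).natAbs with hr
  have hr1 : 1 ≤ r := by omega
  have b1 := D.abd p (by omega)
  have hrR : r ≤ RR p := by
    have c1 : |a p| ≤ (W p : ℤ) := by exact_mod_cast b1
    unfold RR
    rw [abs_le] at c1
    omega
  obtain ⟨m1, t1⟩ := D.test (k := p) (r := r * (par p + 1)) (by omega)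
    (Nat.mul_pos hr1 (Nat.succ_pos _))
  have hWp : 3 / (W p : ℝ) ≤ 1 / (8 * (e₀ + 1)) := by
    have h1 : ((24 * (e₀ + 1) : ℕ) : ℝ) ≤ W p := by
      have := lt_W p
      exact_mod_cast (by omega : 24 * (e₀ + 1) ≤ W p)
    push_cast at h1
    rw [div_le_div_iff₀ (W_pos p) (by positivity)]; linarith
  have hN := hK 3 p r (by omega)
  rw [tst_three T hrR] at hN
  have hs4 := abs_div_natAbs hne (c := 4 * (e₀ + 1)) (by positivity)
  have hcast : (4 : ℝ) * ((r * (par p + 1) : ℕ) : ℝ) = 4 * (e₀ + 1) * (r : ℝ) := by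
    rw [hpar]; push_cast; ring
  rw [hcast] at t1
  have hle : (1 : ℝ) / (4 * (e₀ + 1)) ≤ 1 / 2 := by
    apply one_div_le_one_div_of_le (by norm_num)
    have : (0 : ℝ) ≤ e₀ := Nat.cast_nonneg _
    linarith
  have hfin := detect (s := ((a p : ℤ) : ℝ) / (4 * (e₀ + 1) * (r : ℝ)))
    (v := ((X p (r * (par p + 1)) : ℤ) : ℝ) * z) (δ := 3 / W p)
    (m := m1) (by rw [hs4]; exact hle) t1 hN
  rw [hs4] at hfin
  have h2 : (1 : ℝ) / (4 * (e₀ + 1)) = 1 / (8 * (e₀ + 1)) + 1 / (8 * (e₀ + 1)) := by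
    field_simp; ring
  linarith

theorem exists_ne_zero {z : ℝ} {J : ℕ} {a : ℕ → ℤ} {e : ℕ → ℝ} (D : Dig z J a e)
    (hz : ∀ m : ℕ, 0 < m → ∀ n : ℤ, (m : ℝ) * z ≠ n) (J' : ℕ) (hJ : J ≤ J') :
    ∃ p, J' ≤ p ∧ a p ≠ 0 := by
  by_contra hcon
  push Not at hcon
  have h1 : ∀ n : ℕ, (2 : ℝ) ^ n * |e J'| ≤ |e (J' + n)| := by
    intro n
    induction n with
    | zero => simp
    | succ n ih =>
      have h2 := D.rc (J' + n) (by omega)
      rw [hcon (J' + n) (by omega), Int.cast_zero, mul_zero, sub_zero] at h2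
      have hW := W_two (J' + n)
      have h3 : (2 : ℝ) ≤ (W (J' + n) : ℝ) ^ 3 + 1 := by nlinarith [sq_nonneg (W (J' + n) : ℝ)]
      rw [show J' + (n + 1) = J' + n + 1 by ring, h2, abs_mul,
        abs_of_pos (show (0 : ℝ) < (W (J' + n) : ℝ) ^ 3 + 1 by linarith), pow_succ]
      nlinarith [abs_nonneg (e (J' + n)), abs_nonneg (e J')]
  have h2 : e J' = 0 := by
    by_contra hne
    have hpos : 0 < |e J'| := abs_pos.2 hne
    obtain ⟨n, hn⟩ := pow_unbounded_of_one_lt (1 / |e J'|) (one_lt_two : (1 : ℝ) < 2)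
    rw [div_lt_iff₀ hpos] at hn
    have h3 := D.ebd (J' + n) (by omega)
    have h4 : (1 : ℝ) / W (J' + n) ≤ 1 := by
      rw [div_le_one (W_pos _)]
      linarith [W_two (J' + n)]
    linarith [h1 n]
  obtain ⟨m, hm⟩ := D.cong J' hJ
  rw [h2, add_zero] at hm
  exact hz (W J') (by have := two_le_W J'; omega) m hm

/-- If all tests pass for an irrational number then the tree has an infinite chain. -/
theorem chain_of_pass {T : ℕ → Prop} {z : ℝ} (h : Pass T z)
    (hz : ∀ m : ℕ, 0 < m → ∀ n : ℤ, (m : ℝ) * z ≠ n) :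
    ∃ s j : ℕ → ℕ, (∀ k, s (k + 1) = ch (j k) (s k)) ∧ ∀ k, T (s k) := by
  obtain ⟨J, a, e, D⟩ := exists_dig h
  obtain ⟨J', hJ, hJ1, E1, E2⟩ := digit_eqs h D
  obtain ⟨p₀, hp₀, ha₀⟩ := exists_ne_zero D hz J' hJ
  have step : ∀ p : {p : ℕ // J' ≤ p ∧ a p ≠ 0}, ∃ q : {p : ℕ // J' ≤ p ∧ a p ≠ 0},
      ∃ j : ℕ, (q : ℕ) = ch 0 (ch j (par p)) := by
    rintro ⟨p, hp, hap⟩
    have hT : T (par p) := by
      by_contra hT
      exact hap (E2 p hp hT)
    by_contra hcon
    push Not at hcon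
    obtain ⟨M, hM⟩ := digit_vanish h D (par p)
    have hpp := ch_idx_par (p := p) (by omega)
    have key : ∀ n, a (ch (idx p + n) (par p)) = a p := by
      intro n
      induction n with
      | zero => rw [add_zero, hpp]
      | succ n ih =>
        have hge : p ≤ ch (idx p + n) (par p) := by
          conv_lhs => rw [← hpp]
          exact ch_le_ch (by omega) _
        have h1 := E1 (ch (idx p + n) (par p)) (by omega) (by rw [par_ch]; exact hT)
        have h2 : a (dn (ch (idx p + n) (par p))) = 0 := by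
          by_contra h3
          have h4 := lt_dn (ch (idx p + n) (par p))
          exact hcon ⟨dn (ch (idx p + n) (par p)), by omega, h3⟩ (idx p + n) rfl
        rw [h2, zero_add, ih] at h1
        rw [h1]
        unfold sk
        rw [idx_ch, par_ch]
        rfl
    have h1 := key M
    rw [hM (idx p + M) (by omega)] at h1
    exact hap h1.symm
  choose g jj hg using step
  set P : ℕ → {p : ℕ // J' ≤ p ∧ a p ≠ 0} := fun k => g^[k] ⟨p₀, hp₀, ha₀⟩ with hP
  refine ⟨fun k => par (P k), fun k => jj (P k), fun k => ?_, fun k => ?_⟩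
  · show par (P (k + 1) : ℕ) = _
    have h1 : P (k + 1) = g (P k) := by simp only [hP, Function.iterate_succ_apply']
    rw [h1, hg, par_ch]
  · by_contra hT
    exact (P k).2.2 (E2 _ (P k).2.1 hT)

end Pool.Agent.X194.RB
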